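import Pool.Agent.N550.OC.Stm
import Pool.Agent.Helper514.IoD

/-!
# Project OC, leaf P1B (second author): the family of bijections of a resolution

`open_image` is invariance of domain in any finite-dimensional space; `key` says that the
resolution and the family have the same image of the open ball; the family of bijections is
`F ∘ g⁻¹` on this image and the identity elsewhere.
-/

set_option autoImplicit false

open Set Filter Topology Metric Function
open scoped ContDiff

noncomputable section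

namespace Pool.Agent.N787.OC.P1B

open Pool.Agent.Y522 Pool.Agent.N550.KH Pool.Agent.N550.BC Pool.Agent.N550.OC

theorem open_image {V : Type*} [NormedAddCommGroup V] [NormedSpace ℝ V] [FiniteDimensional ℝ V]
    (f : V → V) (U : Set V) (hU : IsOpen U) (hc : ContinuousOn f U) (hi : InjOn f U) :
    IsOpen (f '' U) := by
  rw [isOpen_iff_mem_nhds]
  rintro _ ⟨x, hx, rfl⟩
  let L : V ≃L[ℝ] EuclideanSpace ℝ (Fin (Module.finrank ℝ V)) :=
    ContinuousLinearEquiv.ofFinrankEq (by simp)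
  have hW : IsOpen (L.symm ⁻¹' U) := hU.preimage L.symm.continuous
  have hxW : L x ∈ L.symm ⁻¹' U := by simpa using hx
  obtain ⟨r, hr, hrW⟩ := Metric.nhds_basis_closedBall.mem_iff.1 (hW.mem_nhds hxW)
  have h := Pool.Agent.Helper514.IoD.image_mem_nhds (fun w => L (f (L.symm w))) (L x) r hr
    (L.continuous.comp_continuousOn (hc.comp L.symm.continuous.continuousOn (fun w hw => hrW hw)))
    (fun a ha b hb hab => L.symm.injective (hi (hrW ha) (hrW hb) (L.injective hab)))
  have h1 : L ⁻¹' ((fun w => L (f (L.symm w))) '' closedBall (L x) r) ∈ 𝓝 (f x) := by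
    apply L.continuous.continuousAt.preimage_mem_nhds
    simpa using h
  refine mem_of_superset h1 ?_
  rintro y ⟨w, hw, hwy⟩
  exact ⟨L.symm w, hrW hw, L.injective hwy⟩

variable {k : ℕ} {g F : ℝ → E k → E k} {ε ρ τ r r' : ℝ}

theorem slice_cont {f : ℝ → E k → E k} {s : ℝ} {y : E k}
    (h : ContinuousAt (fun p : ℝ × E k => f p.1 p.2) (s, y)) : ContinuousAt (f s) y :=
  ContinuousAt.comp (f := fun y : E k => (s, y)) (g := fun p : ℝ × E k => f p.1 p.2) (x := y)
    h (by fun_prop)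

theorem slice_smooth {f : ℝ → E k → E k} {s : ℝ} {y : E k}
    (h : ContDiffAt ℝ ∞ (fun p : ℝ × E k => f p.1 p.2) (s, y)) : ContDiffAt ℝ ∞ (f s) y :=
  ContDiffAt.comp (f := fun y : E k => (s, y)) (g := fun p : ℝ × E k => f p.1 p.2) y
    h (by fun_prop)

theorem key (hk : 2 ≤ k) (hg : Fam k g ε) (hF : Res k g F ε ρ τ r r') {s : ℝ}
    (hs : |s| < 2 * τ) : F s '' ball 0 r = g s '' ball 0 r := by
  obtain ⟨hε, hgc, hgd, hgi⟩ := hg
  obtain ⟨hτ, hτρ, hτε, hr'0, hr'r, hrε, hFs, hFb, hFi, hFg, hFg2, hFρ⟩ := hF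
  have hsε : |s| < ε := hs.trans hτε
  have hgcont : ContinuousOn (g s) (ball 0 ε) := fun y hy =>
    (slice_cont (hgc s y hsε (by simpa using hy))).continuousWithinAt
  have hFcont : ContinuousOn (F s) (ball 0 ε) := fun y hy =>
    (slice_cont (hFs s y hs (by simpa using hy)).continuousAt).continuousWithinAt
  have hbb : ball (0 : E k) r ⊆ ball 0 ε := ball_subset_ball hrε.le
  have hcb : closedBall (0 : E k) r ⊆ ball 0 ε := closedBall_subset_ball hrε
  have hUo : IsOpen (g s '' ball 0 r) :=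
    open_image (g s) _ isOpen_ball (hgcont.mono hbb) ((hgi s hsε).mono hbb)
  have hVo : IsOpen (F s '' ball 0 r) :=
    open_image (F s) _ isOpen_ball (hFcont.mono hbb) ((hFi s hs).mono ball_subset_closedBall)
  obtain ⟨y1, hy1⟩ : ∃ y1 : E k, ‖y1‖ = r' := by
    refine ⟨EuclideanSpace.single ⟨0, by omega⟩ r', ?_⟩
    simp [abs_of_pos hr'0]
  have hF1 : F s y1 = g s y1 := hFg s y1 hs hy1.ge (by rw [hy1]; linarith)
  have hy1b : y1 ∈ ball (0 : E k) r := by simp [hy1, hr'r]
  have hUc : IsClosed (g s '' closedBall 0 r) :=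
    ((isCompact_closedBall 0 r).image_of_continuousOn (hgcont.mono hcb)).isClosed
  have hVc : IsClosed (F s '' closedBall 0 r) :=
    ((isCompact_closedBall 0 r).image_of_continuousOn (hFcont.mono hcb)).isClosed
  have hsph : ∀ y : E k, ‖y‖ = r → F s y = g s y := fun y hy =>
    hFg s y hs (by linarith) (by linarith)
  apply Subset.antisymm
  · have hpre : IsPreconnected (F s '' ball 0 r) :=
      ((convex_ball 0 r).isPreconnected).image _ (hFcont.mono hbb)
    refine hpre.subset_left_of_subset_union hUo hUc.isOpen_compl ?_ ?_ ?_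
    · rw [Set.disjoint_left]
      rintro _ ⟨y, hy, rfl⟩ h
      exact h ⟨y, ball_subset_closedBall hy, rfl⟩
    · rintro _ ⟨y, hy, rfl⟩
      by_cases h : F s y ∈ g s '' ball 0 r
      · exact Or.inl h
      · right
        rintro ⟨y', hy', he⟩
        have hn : ‖y'‖ = r := by
          by_contra hne
          exact h ⟨y', by simpa using lt_of_le_of_ne (by simpa using hy') hne, he⟩
        have h2 : F s y' = F s y := by rw [hsph y' hn, he]
        have h3 := hFi s hs hy' (ball_subset_closedBall hy) h2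
        rw [h3] at hn
        simp only [mem_ball, dist_zero_right] at hy
        linarith
    · exact ⟨F s y1, ⟨y1, hy1b, rfl⟩, ⟨y1, hy1b, hF1.symm⟩⟩
  · have hpre : IsPreconnected (g s '' ball 0 r) :=
      ((convex_ball 0 r).isPreconnected).image _ (hgcont.mono hbb)
    refine hpre.subset_left_of_subset_union hVo hVc.isOpen_compl ?_ ?_ ?_
    · rw [Set.disjoint_left]
      rintro _ ⟨y, hy, rfl⟩ h
      exact h ⟨y, ball_subset_closedBall hy, rfl⟩
    · rintro _ ⟨y, hy, rfl⟩
      by_cases h : g s y ∈ F s '' ball 0 r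
      · exact Or.inl h
      · right
        rintro ⟨y', hy', he⟩
        have hn : ‖y'‖ = r := by
          by_contra hne
          exact h ⟨y', by simpa using lt_of_le_of_ne (by simpa using hy') hne, he⟩
        have h2 : g s y' = g s y := by rw [← hsph y' hn, he]
        have h3 := hgi s hsε (hcb hy') (hbb hy) h2
        rw [h3] at hn
        simp only [mem_ball, dist_zero_right] at hy
        linarith
    · exact ⟨g s y1, ⟨y1, hy1b, rfl⟩, ⟨y1, hy1b, hF1⟩⟩

theorem exists_e (hg : Fam k g ε) : ∃ e : OpenPartialHomeomorph (ℝ × E k) (ℝ × E k),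
    e.source = {p | |p.1| < ε ∧ ‖p.2‖ < ε} ∧ ∀ p, e p = (p.1, g p.1 p.2) := by
  obtain ⟨hε, hgc, hgd, hgi⟩ := hg
  set B : Set (ℝ × E k) := {p | |p.1| < ε ∧ ‖p.2‖ < ε} with hB
  have hBo : IsOpen B := by
    have h1 : IsOpen {p : ℝ × E k | |p.1| < ε} := isOpen_lt (by fun_prop) continuous_const
    have h2 : IsOpen {p : ℝ × E k | ‖p.2‖ < ε} := isOpen_lt (by fun_prop) continuous_const
    exact h1.inter h2
  have hc : ContinuousOn (fun p : ℝ × E k => (p.1, g p.1 p.2)) B := fun p hp =>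
    (continuousAt_fst.prodMk (hgc p.1 p.2 hp.1 hp.2)).continuousWithinAt
  have hi : InjOn (fun p : ℝ × E k => (p.1, g p.1 p.2)) B := by
    rintro ⟨t, y⟩ hp ⟨t', y'⟩ hp' h
    simp only [Prod.mk.injEq] at h
    obtain ⟨h1, h2⟩ := h
    subst h1
    rw [hgi t hp.1 (by simpa using hp.2) (by simpa using hp'.2) h2]
  refine ⟨OpenPartialHomeomorph.ofContinuousOpenRestrict (hi.toPartialEquiv _ _) hc ?_ hBo, rfl,
    fun p => rfl⟩
  intro U hU
  have h1 : IsOpen (Subtype.val '' U : Set (ℝ × E k)) := hBo.isOpenMap_subtype_val _ hU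
  have hsub : (Subtype.val '' U : Set (ℝ × E k)) ⊆ B := by
    rintro _ ⟨⟨x, hx⟩, _, rfl⟩
    exact hx
  have h2 := open_image (fun p : ℝ × E k => (p.1, g p.1 p.2)) _ h1 (hc.mono hsub) (hi.mono hsub)
  rw [Set.image_image] at h2
  exact h2

open Classical in
/-- `F s ∘ (g s)⁻¹` on the image of the ball of radius `r`, the identity elsewhere. -/
def psi (g F : ℝ → E k → E k) (r : ℝ) (s : ℝ) (z : E k) : E k :=
  if h : ∃ y, ‖y‖ < r ∧ g s y = z then F s h.choose else z

theorem psi_g (hg : Fam k g ε) (hF : Res k g F ε ρ τ r r') {s : ℝ}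
    (hs : |s| < 2 * τ) {y : E k} (hy : ‖y‖ < ε) : psi g F r s (g s y) = F s y := by
  obtain ⟨hε, hgc, hgd, hgi⟩ := hg
  obtain ⟨hτ, hτρ, hτε, hr'0, hr'r, hrε, hFs, hFb, hFi, hFg, hFg2, hFρ⟩ := hF
  unfold psi
  split_ifs with h
  · have h1 := h.choose_spec
    rw [hgi s (hs.trans hτε) (by simpa using h1.1.trans hrε) (by simpa using hy) h1.2]
  · have hyr : r ≤ ‖y‖ := by
      by_contra hlt
      exact h ⟨y, not_le.1 hlt, rfl⟩
    exact (hFg s y hs (hr'r.le.trans hyr) hy).symm

theorem psi_out {s : ℝ} {z : E k} (h : ∀ y, ‖y‖ < r → g s y ≠ z) : psi g F r s z = z := by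
  unfold psi
  rw [dif_neg]
  rintro ⟨y, hy, he⟩
  exact h y hy he

theorem psi_bij (hk : 2 ≤ k) (hg : Fam k g ε) (hF : Res k g F ε ρ τ r r') {s : ℝ}
    (hs : |s| < 2 * τ) : Bijective (psi g F r s) := by
  have hkey := key hk hg hF hs
  have hrε : r < ε := hF.2.2.2.2.2.1
  have hFi : InjOn (F s) (closedBall 0 r) := hF.2.2.2.2.2.2.2.2.1 s hs
  have hin : ∀ y, ‖y‖ < r → psi g F r s (g s y) = F s y := fun y hy =>
    psi_g hg hF hs (hy.trans hrε)
  have hout : ∀ z, z ∉ g s '' ball 0 r → psi g F r s z = z := fun z hz =>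
    psi_out (fun y hy he => hz ⟨y, by simpa using hy, he⟩)
  have hmem : ∀ z, z ∈ g s '' ball 0 r → psi g F r s z ∈ g s '' ball 0 r := by
    rintro _ ⟨y, hy, rfl⟩
    rw [hin y (by simpa using hy), ← hkey]
    exact ⟨y, hy, rfl⟩
  constructor
  · intro a b hab
    by_cases ha : a ∈ g s '' ball 0 r
    · by_cases hb : b ∈ g s '' ball 0 r
      · obtain ⟨y, hy, rfl⟩ := ha
        obtain ⟨y', hy', rfl⟩ := hb
        rw [hin y (by simpa using hy), hin y' (by simpa using hy')] at hab
        rw [hFi (ball_subset_closedBall hy) (ball_subset_closedBall hy') hab]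
      · exfalso
        apply hb
        rw [← hout b hb, ← hab]
        exact hmem a ha
    · by_cases hb : b ∈ g s '' ball 0 r
      · exfalso
        apply ha
        rw [← hout a ha, hab]
        exact hmem b hb
      · rwa [hout a ha, hout b hb] at hab
  · intro z
    by_cases hz : z ∈ g s '' ball 0 r
    · rw [← hkey] at hz
      obtain ⟨y, hy, rfl⟩ := hz
      exact ⟨g s y, hin y (by simpa using hy)⟩
    · exact ⟨z, hout z hz⟩

/-- the local formula -/
theorem psi_loc (hg : Fam k g ε) (hF : Res k g F ε ρ τ r r')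
    (e : OpenPartialHomeomorph (ℝ × E k) (ℝ × E k))
    (he : e.source = {p | |p.1| < ε ∧ ‖p.2‖ < ε})
    (hee : ∀ p, e p = (p.1, g p.1 p.2)) {s : ℝ} (hs : |s| < 2 * τ) {y : E k} (hy : ‖y‖ < ε) :
    (s, g s y) ∈ e.target ∧ e.symm (s, g s y) = (s, y) ∧
    ∀ᶠ q : ℝ × E k in 𝓝 (s, g s y), g q.1 (e.symm q).2 = q.2 ∧
      psi g F r q.1 q.2 = F q.1 (e.symm q).2 := by
  have hτε : 2 * τ < ε := hF.2.2.1
  have hsrc : (s, y) ∈ e.source := by
    rw [he]
    exact ⟨hs.trans hτε, hy⟩
  have htar : (s, g s y) ∈ e.target := by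
    have := e.map_source hsrc
    rwa [hee] at this
  have hinv : e.symm (s, g s y) = (s, y) := by
    have := e.left_inv hsrc
    rwa [hee] at this
  refine ⟨htar, hinv, ?_⟩
  have h1 : ∀ᶠ q : ℝ × E k in 𝓝 (s, g s y), q ∈ e.target := e.open_target.mem_nhds htar
  have h2o : IsOpen {q : ℝ × E k | |q.1| < 2 * τ} := isOpen_lt (by fun_prop) continuous_const
  have h2 : ∀ᶠ q : ℝ × E k in 𝓝 (s, g s y), |q.1| < 2 * τ := h2o.mem_nhds hs
  filter_upwards [h1, h2] with q hq1 hq2
  have h3 := e.right_inv hq1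
  rw [hee] at h3
  have h4 := e.map_target hq1
  rw [he] at h4
  have h5 : (e.symm q).1 = q.1 := (Prod.ext_iff.1 h3).1
  have h6 : g (e.symm q).1 (e.symm q).2 = q.2 := (Prod.ext_iff.1 h3).2
  rw [h5] at h6
  refine ⟨h6, ?_⟩
  have h7 := psi_g hg hF hq2 h4.2
  rwa [h6] at h7

theorem symm_smooth (hg : Fam k g ε)
    (e : OpenPartialHomeomorph (ℝ × E k) (ℝ × E k))
    (hee : ∀ p, e p = (p.1, g p.1 p.2)) {s : ℝ} (hs : |s| < ε) {y : E k} (hy : ‖y‖ < ε)
    (hne : s ≠ 0 ∨ y ≠ 0) (htar : (s, g s y) ∈ e.target)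
    (hinv : e.symm (s, g s y) = (s, y)) : ContDiffAt ℝ ∞ e.symm (s, g s y) := by
  obtain ⟨hsm, hbij⟩ := hg.2.2.1 s y hs hy hne
  have hG : ContDiffAt ℝ ∞ (fun p : ℝ × E k => (p.1, g p.1 p.2)) (s, y) :=
    contDiffAt_fst.prodMk hsm
  have hfe : ⇑e = fun p : ℝ × E k => (p.1, g p.1 p.2) := funext hee
  have hD := (hsm.differentiableAt (by simp)).hasFDerivAt
  set D := fderiv ℝ (fun p : ℝ × E k => g p.1 p.2) (s, y) with hDdef
  have hGD : HasFDerivAt (fun p : ℝ × E k => (p.1, g p.1 p.2))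
      ((ContinuousLinearMap.fst ℝ ℝ (E k)).prod D) (s, y) := hasFDerivAt_fst.prodMk hD
  have hslice : HasFDerivAt (g s) (D.comp (ContinuousLinearMap.inr ℝ ℝ (E k))) y :=
    HasFDerivAt.comp (f := fun y : E k => (s, y)) (g := fun p : ℝ × E k => g p.1 p.2) y hD
      (hasFDerivAt_prodMk_right s y)
  have hinj : Injective ((ContinuousLinearMap.fst ℝ ℝ (E k)).prod D) := by
    rw [injective_iff_map_eq_zero]
    rintro ⟨a, v⟩ hav
    simp only [ContinuousLinearMap.prod_apply, ContinuousLinearMap.coe_fst', Prod.mk_eq_zero]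
      at hav
    obtain ⟨rfl, hv⟩ := hav
    have h0 : fderiv ℝ (g s) y v = 0 := by
      rw [hslice.fderiv]
      simpa using hv
    have : v = 0 := hbij.1 (by rw [h0, map_zero])
    rw [this]
    rfl
  let L : (ℝ × E k) ≃L[ℝ] (ℝ × E k) := ContinuousLinearEquiv.ofBijective
    ((ContinuousLinearMap.fst ℝ ℝ (E k)).prod D) (LinearMap.ker_eq_bot.2 hinj)
    (LinearMap.range_eq_top.2 (LinearMap.injective_iff_surjective.1 hinj))
  have hLc : (L : (ℝ × E k) →L[ℝ] (ℝ × E k)) = (ContinuousLinearMap.fst ℝ ℝ (E k)).prod D :=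
    ContinuousLinearEquiv.coe_ofBijective _ _ _
  refine e.contDiffAt_symm (f₀' := L) htar ?_ ?_
  · rw [hinv, hfe, hLc]
    exact hGD
  · rw [hinv, hfe]
    exact hG

theorem psi_far (hg : Fam k g ε) (hF : Res k g F ε ρ τ r r') {s : ℝ} (hs : |s| < 2 * τ)
    {z : E k} (hz : ∀ y, ‖y‖ ≤ r → g s y ≠ z) :
    ∀ᶠ q : ℝ × E k in 𝓝 (s, z), psi g F r q.1 q.2 = q.2 := by
  have hτε : 2 * τ < ε := hF.2.2.1
  have hrε : r < ε := hF.2.2.2.2.2.1
  obtain ⟨a, ha1, ha2⟩ := exists_between hs
  have hK : IsCompact (Icc (-a) a ×ˢ closedBall (0 : E k) r) :=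
    isCompact_Icc.prod (isCompact_closedBall 0 r)
  have hc : ContinuousOn (fun p : ℝ × E k => (p.1, g p.1 p.2))
      (Icc (-a) a ×ˢ closedBall (0 : E k) r) := fun p hp =>
    (continuousAt_fst.prodMk (hg.2.1 p.1 p.2
      (((abs_le.2 hp.1).trans_lt ha2).trans hτε)
      (lt_of_le_of_lt (by simpa using hp.2) hrε))).continuousWithinAt
  have hcl := (hK.image_of_continuousOn hc).isClosed
  have hnm : (s, z) ∉ (fun p : ℝ × E k => (p.1, g p.1 p.2)) ''
      (Icc (-a) a ×ˢ closedBall (0 : E k) r) := by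
    rintro ⟨⟨t, y⟩, hp, he⟩
    simp only [Prod.mk.injEq] at he
    obtain ⟨h1, h2⟩ := he
    subst h1
    exact hz y (by simpa using hp.2) h2
  have h1 := hcl.isOpen_compl.mem_nhds hnm
  have h2o : IsOpen {q : ℝ × E k | |q.1| < a} := isOpen_lt (by fun_prop) continuous_const
  have h2 : ∀ᶠ q : ℝ × E k in 𝓝 (s, z), |q.1| < a := h2o.mem_nhds ha1
  filter_upwards [h1, h2] with q hq1 hq2
  apply psi_out
  intro y hy he
  exact hq1 ⟨(q.1, y), ⟨abs_le.1 hq2.le, by simpa using hy.le⟩, Prod.ext rfl he⟩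

theorem psi_smooth (hg : Fam k g ε) (hF : Res k g F ε ρ τ r r') {s : ℝ} (hs : |s| < 2 * τ)
    (z : E k) : ContinuousAt (fun q : ℝ × E k => psi g F r q.1 q.2) (s, z) ∧
      ((s ≠ 0 ∨ z ≠ g 0 0) → ContDiffAt ℝ ∞ (fun q : ℝ × E k => psi g F r q.1 q.2) (s, z) ∧
        Bijective (fderiv ℝ (psi g F r s) z)) := by
  have hτε : 2 * τ < ε := hF.2.2.1
  have hrε : r < ε := hF.2.2.2.2.2.1
  have hFs := hF.2.2.2.2.2.2.1
  have hFb := hF.2.2.2.2.2.2.2.1
  by_cases hz : ∃ y, ‖y‖ ≤ r ∧ g s y = z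
  · obtain ⟨y, hy, rfl⟩ := hz
    have hyε : ‖y‖ < ε := hy.trans_lt hrε
    obtain ⟨e, he, hee⟩ := exists_e hg
    obtain ⟨htar, hinv, hloc⟩ := psi_loc hg hF e he hee hs hyε
    have heq : (fun q : ℝ × E k => psi g F r q.1 q.2) =ᶠ[𝓝 (s, g s y)]
        fun q => (fun p : ℝ × E k => F p.1 p.2) (q.1, (e.symm q).2) :=
      hloc.mono fun q hq => hq.2
    have hFy := hFs s y hs hyε
    constructor
    · refine ContinuousAt.congr ?_ heq.symm
      refine ContinuousAt.comp (g := fun p : ℝ × E k => F p.1 p.2)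
        (f := fun q : ℝ × E k => (q.1, (e.symm q).2)) ?_ ?_
      · rw [hinv]
        exact hFy.continuousAt
      · exact continuousAt_fst.prodMk (continuousAt_snd.comp (e.continuousAt_symm htar))
    · intro hne
      have hne' : s ≠ 0 ∨ y ≠ 0 := by
        by_contra hcon
        push Not at hcon
        obtain ⟨h1, h2⟩ := hcon
        subst h1
        subst h2
        simp at hne
      have hsy := symm_smooth hg e hee (hs.trans hτε) hyε hne' htar hinv
      constructor
      · refine ContDiffAt.congr_of_eventuallyEq ?_ heq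
        refine ContDiffAt.comp (g := fun p : ℝ × E k => F p.1 p.2)
          (f := fun q : ℝ × E k => (q.1, (e.symm q).2)) _ ?_ ?_
        · rw [hinv]
          exact hFy
        · exact contDiffAt_fst.prodMk (contDiffAt_snd.comp _ hsy)
      · have hH : ContDiffAt ℝ ∞ (fun z : E k => (e.symm (s, z)).2) (g s y) :=
          contDiffAt_snd.comp _ (ContDiffAt.comp (g := e.symm) (f := fun z : E k => (s, z)) _ hsy
            (by fun_prop))
        have hHval : (e.symm (s, g s y)).2 = y := by rw [hinv]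
        have hH' := (hH.differentiableAt (by simp)).hasFDerivAt
        set H' := fderiv ℝ (fun z : E k => (e.symm (s, z)).2) (g s y)
        have hFd : HasFDerivAt (F s) (fderiv ℝ (F s) y) ((e.symm (s, g s y)).2) := by
          rw [hHval]
          exact ((slice_smooth hFy).differentiableAt (by simp)).hasFDerivAt
        obtain ⟨hgsm, hgb⟩ := hg.2.2.1 s y (hs.trans hτε) hyε hne'
        have hgd : HasFDerivAt (g s) (fderiv ℝ (g s) y) ((e.symm (s, g s y)).2) := by
          rw [hHval]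
          exact ((slice_smooth hgsm).differentiableAt (by simp)).hasFDerivAt
        have hsl : ContinuousAt (fun z : E k => (s, z)) (g s y) := by fun_prop
        have hev := hsl.eventually hloc
        have hP : HasFDerivAt (psi g F r s) ((fderiv ℝ (F s) y).comp H') (g s y) :=
          (HasFDerivAt.comp (g := F s) (f := fun z : E k => (e.symm (s, z)).2) (g s y) hFd
            hH').congr_of_eventuallyEq (hev.mono fun z hz => hz.2)
        have hI : HasFDerivAt (fun z : E k => z) ((fderiv ℝ (g s) y).comp H') (g s y) :=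
          (HasFDerivAt.comp (g := g s) (f := fun z : E k => (e.symm (s, z)).2) (g s y) hgd
            hH').congr_of_eventuallyEq (hev.mono fun z hz => hz.1.symm)
        have hid : (fderiv ℝ (g s) y).comp H' = ContinuousLinearMap.id ℝ (E k) :=
          hI.unique (hasFDerivAt_id _)
        rw [hP.fderiv]
        have hidv : ∀ v, fderiv ℝ (g s) y (H' v) = v := fun v => by
          have := DFunLike.congr_fun hid v
          simpa using this
        have hHb : Bijective H' := by
          constructor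
          · intro a b hab
            rw [← hidv a, ← hidv b, hab]
          · intro w
            exact ⟨fderiv ℝ (g s) y w, hgb.1 (hidv _)⟩
        exact (hFb s y hs hy).comp hHb
  · push Not at hz
    have hev := psi_far hg hF hs hz
    have heq : (fun q : ℝ × E k => psi g F r q.1 q.2) =ᶠ[𝓝 (s, z)] fun q => q.2 := hev
    have hsl : ContinuousAt (fun z : E k => (s, z)) z := by fun_prop
    have hev2 := hsl.eventually hev
    refine ⟨continuousAt_snd.congr heq.symm, fun _ =>
      ⟨contDiffAt_snd.congr_of_eventuallyEq heq, ?_⟩⟩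
    have hI : HasFDerivAt (psi g F r s) (ContinuousLinearMap.id ℝ (E k)) z :=
      (hasFDerivAt_id z).congr_of_eventuallyEq (hev2.mono fun w hw => hw)
    rw [hI.fderiv]
    exact bijective_id

/-- the reparametrization of the time -/
def mu (τ t : ℝ) : ℝ :=
  t + Real.smoothTransition ((t - τ / 2) / (τ / 2)) * (τ - t) +
    Real.smoothTransition ((-t - τ / 2) / (τ / 2)) * (-τ - t)

theorem mu_smooth (τ : ℝ) : ContDiff ℝ ∞ (mu τ) := by
  unfold mu
  have h1 : ContDiff ℝ ∞ (fun t : ℝ => Real.smoothTransition ((t - τ / 2) / (τ / 2))) :=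
    Real.smoothTransition.contDiff.comp (by fun_prop)
  have h2 : ContDiff ℝ ∞ (fun t : ℝ => Real.smoothTransition ((-t - τ / 2) / (τ / 2))) :=
    Real.smoothTransition.contDiff.comp (by fun_prop)
  fun_prop

theorem mu_pos (hτ : 0 < τ) {t : ℝ} (ht : -(τ / 2) ≤ t) :
    mu τ t = t + Real.smoothTransition ((t - τ / 2) / (τ / 2)) * (τ - t) := by
  unfold mu
  rw [Real.smoothTransition.zero_of_nonpos (x := (-t - τ / 2) / (τ / 2))
    (div_nonpos_of_nonpos_of_nonneg (by linarith) (by linarith))]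
  ring

theorem mu_neg (hτ : 0 < τ) {t : ℝ} (ht : t ≤ τ / 2) :
    mu τ t = t + Real.smoothTransition ((-t - τ / 2) / (τ / 2)) * (-τ - t) := by
  unfold mu
  rw [Real.smoothTransition.zero_of_nonpos (x := (t - τ / 2) / (τ / 2))
    (div_nonpos_of_nonpos_of_nonneg (by linarith) (by linarith))]
  ring

theorem mu_near (hτ : 0 < τ) {t : ℝ} (ht : |t| ≤ τ / 2) : mu τ t = t := by
  rw [mu_pos hτ (abs_le.1 ht).1]
  rw [Real.smoothTransition.zero_of_nonpos (x := (t - τ / 2) / (τ / 2))
    (div_nonpos_of_nonpos_of_nonneg (by linarith [(abs_le.1 ht).2]) (by linarith))]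
  ring

theorem mu_top (hτ : 0 < τ) {t : ℝ} (ht : τ ≤ t) : mu τ t = τ := by
  rw [mu_pos hτ (by linarith), Real.smoothTransition.one_of_one_le
    ((one_le_div (by linarith)).2 (by linarith))]
  ring

theorem mu_bot (hτ : 0 < τ) {t : ℝ} (ht : t ≤ -τ) : mu τ t = -τ := by
  rw [mu_neg hτ (by linarith), Real.smoothTransition.one_of_one_le
    ((one_le_div (by linarith)).2 (by linarith))]
  ring

theorem mu_mid1 (hτ : 0 < τ) {t : ℝ} (h0 : 0 ≤ t) (ht : t ≤ τ) : t ≤ mu τ t ∧ mu τ t ≤ τ := by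
  rw [mu_pos hτ (by linarith)]
  have h1 := Real.smoothTransition.nonneg ((t - τ / 2) / (τ / 2))
  have h2 := Real.smoothTransition.le_one ((t - τ / 2) / (τ / 2))
  constructor <;> nlinarith

theorem mu_mid2 (hτ : 0 < τ) {t : ℝ} (h0 : t ≤ 0) (ht : -τ ≤ t) : mu τ t ≤ t ∧ -τ ≤ mu τ t := by
  rw [mu_neg hτ (by linarith)]
  have h1 := Real.smoothTransition.nonneg ((-t - τ / 2) / (τ / 2))
  have h2 := Real.smoothTransition.le_one ((-t - τ / 2) / (τ / 2))
  constructor <;> nlinarith

theorem mu_abs (hτ : 0 < τ) (t : ℝ) : |mu τ t| < 2 * τ := by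
  rw [abs_lt]
  rcases le_total 0 t with h | h
  · rcases le_total t τ with h' | h'
    · have := mu_mid1 hτ h h'
      constructor <;> linarith
    · rw [mu_top hτ h']
      constructor <;> linarith
  · rcases le_total (-τ) t with h' | h'
    · have := mu_mid2 hτ h h'
      constructor <;> linarith
    · rw [mu_bot hτ h']
      constructor <;> linarith

theorem mu_ne (hτ : 0 < τ) {t : ℝ} (ht : t ≠ 0) : mu τ t ≠ 0 := by
  rcases lt_or_gt_of_ne ht with h | h
  · rcases le_total (-τ) t with h' | h'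
    · have := mu_mid2 hτ h.le h'
      linarith
    · rw [mu_bot hτ h']
      linarith
  · rcases le_total t τ with h' | h'
    · have := mu_mid1 hτ h.le h'
      linarith
    · rw [mu_top hτ h']
      linarith

theorem main : S_P1B := by
  intro k g F ε ρ τ r r' hk hg hF
  have hτ : 0 < τ := hF.1
  have hrε : r < ε := hF.2.2.2.2.2.1
  have hr'0 : 0 < r' := hF.2.2.2.1
  have hr'r : r' < r := hF.2.2.2.2.1
  have hr0 : 0 < r := hr'0.trans hr'r
  have hε : 0 < ε := hg.1
  have hFs := hF.2.2.2.2.2.2.1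
  have hFb := hF.2.2.2.2.2.2.2.1
  have hFneg := hF.2.2.2.2.2.2.2.2.2.2.1
  have hFρ := hF.2.2.2.2.2.2.2.2.2.2.2
  have hlift : ContDiff ℝ ∞ (fun p : ℝ × E k => (mu τ p.1, p.2)) :=
    ((mu_smooth τ).comp contDiff_fst).prodMk contDiff_snd
  have hnear : ∀ᶠ p : ℝ × E k in 𝓝 ((0 : ℝ), (0 : E k)),
      psi g F r (mu τ p.1) (g p.1 p.2) = F p.1 p.2 := by
    have h1o : IsOpen {q : ℝ × E k | |q.1| < τ / 2} := isOpen_lt (by fun_prop) continuous_const
    have h1 : ∀ᶠ q : ℝ × E k in 𝓝 ((0 : ℝ), (0 : E k)), |q.1| < τ / 2 :=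
      h1o.mem_nhds (by simpa using hτ)
    have h2o : IsOpen {q : ℝ × E k | ‖q.2‖ < ε} := isOpen_lt (by fun_prop) continuous_const
    have h2 : ∀ᶠ q : ℝ × E k in 𝓝 ((0 : ℝ), (0 : E k)), ‖q.2‖ < ε :=
      h2o.mem_nhds (by simpa using hε)
    filter_upwards [h1, h2] with q hq1 hq2
    rw [mu_near hτ hq1.le]
    exact psi_g hg hF (by linarith) hq2
  have h00 : |(0 : ℝ)| < 2 * τ := by simpa using hτ
  refine ⟨fun t z => psi g F r (mu τ t) z,
    ⟨fun t => psi_bij hk hg hF (mu_abs hτ t), ?_, ?_, ?_, ?_⟩, ?_, ?_⟩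
  · rw [continuous_iff_continuousAt]
    rintro ⟨t, z⟩
    exact ContinuousAt.comp (g := fun q : ℝ × E k => psi g F r q.1 q.2)
      (f := fun p : ℝ × E k => (mu τ p.1, p.2)) (x := (t, z))
      (psi_smooth hg hF (mu_abs hτ t) z).1 hlift.continuous.continuousAt
  · intro t z hne
    have hne' : mu τ t ≠ 0 ∨ z ≠ g 0 0 := hne.imp_left (mu_ne hτ)
    obtain ⟨h1, h2⟩ := (psi_smooth hg hF (mu_abs hτ t) z).2 hne'
    exact ⟨ContDiffAt.comp (g := fun q : ℝ × E k => psi g F r q.1 q.2)
      (f := fun p : ℝ × E k => (mu τ p.1, p.2)) (t, z) h1 hlift.contDiffAt, h2⟩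
  · intro t z h
    rcases h with h | h
    · show psi g F r (mu τ t) z = z
      rw [mu_bot hτ h]
      have h2 : |-τ| < 2 * τ := by
        rw [abs_neg, abs_of_pos hτ]
        linarith
      by_cases hz : ∃ y, ‖y‖ < r ∧ g (-τ) y = z
      · obtain ⟨y, hy, rfl⟩ := hz
        rw [psi_g hg hF h2 (hy.trans hrε)]
        exact hFneg (-τ) y h2 (by linarith) (hy.trans hrε)
      · push Not at hz
        exact psi_out hz
    · apply psi_out
      intro y hy he
      have := hFρ (mu τ t) y (mu_abs hτ t) hy.le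
      rw [he] at this
      linarith
  · intro t z h
    show psi g F r (mu τ t) z = psi g F r (mu τ τ) z
    rw [mu_top hτ h, mu_top hτ le_rfl]
  · exact (hFs 0 0 h00 (by simpa using hε)).congr_of_eventuallyEq hnear
  · have hsl : ContinuousAt (fun z : E k => ((0 : ℝ), z)) 0 := by fun_prop
    have hev := hsl.eventually hnear
    have heq : (fun y : E k => psi g F r (mu τ 0) (g 0 y)) =ᶠ[𝓝 0] F 0 := hev.mono fun z hz => hz
    show Bijective (fderiv ℝ (fun y : E k => psi g F r (mu τ 0) (g 0 y)) 0)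
    rw [heq.fderiv_eq]
    exact hFb 0 0 h00 (by simpa using hr0.le)

end Pool.Agent.N787.OC.P1B
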